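import Pool.Agent.Y203.HN.Henon

/-! Attracting and repelling cycles: contraction near the cycle, recurrent points, saddle points. -/

set_option autoImplicit false

open MeasureTheory Filter Topology
open scoped ENNReal NNReal

namespace Pool.Agent.Y203.HN

open Pool.Agent.Helper179.KS Pool.Agent.Helper179.Eq Pool.Agent.Results.MP_636246_an.SinkSaddles

/-- `p` is an attracting periodic point: `f^m(p) = p` and all eigenvalues of `Df^m(p)` have modulus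
less than one. -/
def Att (f : ℂ × ℂ → ℂ × ℂ) (m : ℕ) (p : ℂ × ℂ) : Prop :=
  0 < m ∧ f^[m] p = p ∧ ∀ c : ℂ,
    Module.End.HasEigenvalue (fderiv ℂ (f^[m]) p : ℂ × ℂ →ₗ[ℂ] ℂ × ℂ) c → ‖c‖ < 1

/-- `p` is a repelling periodic point: `f^m(p) = p` and all eigenvalues of `Df^m(p)` have modulus
greater than one. -/
def Rep (f : ℂ × ℂ → ℂ × ℂ) (m : ℕ) (p : ℂ × ℂ) : Prop :=
  0 < m ∧ f^[m] p = p ∧ ∀ c : ℂ,
    Module.End.HasEigenvalue (fderiv ℂ (f^[m]) p : ℂ × ℂ →ₗ[ℂ] ℂ × ℂ) c → 1 < ‖c‖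

lemma hasEigenvalue_of_mem_spectrum (A : ℂ × ℂ →L[ℂ] ℂ × ℂ) {c : ℂ} (hc : c ∈ spectrum ℂ A) :
    Module.End.HasEigenvalue (A : ℂ × ℂ →ₗ[ℂ] ℂ × ℂ) c := by
  rw [Module.End.hasEigenvalue_iff_mem_spectrum]
  have h := AlgEquiv.spectrum_eq (Module.End.toContinuousLinearMap (𝕜 := ℂ) (ℂ × ℂ))
    (A : ℂ × ℂ →ₗ[ℂ] ℂ × ℂ)
  have h2 : Module.End.toContinuousLinearMap (𝕜 := ℂ) (ℂ × ℂ) (A : ℂ × ℂ →ₗ[ℂ] ℂ × ℂ) = A := by
    ext <;> rfl
  rw [h2] at h
  rw [← h]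
  exact hc

lemma exists_pow_small (A : ℂ × ℂ →L[ℂ] ℂ × ℂ)
    (h : ∀ c : ℂ, Module.End.HasEigenvalue (A : ℂ × ℂ →ₗ[ℂ] ℂ × ℂ) c → ‖c‖ < 1) :
    ∃ N : ℕ, 0 < N ∧ ‖A ^ N‖ ≤ 1 / 2 := by
  have h1 : spectralRadius ℂ A < ((1 : ℝ≥0) : ℝ≥0∞) :=
    spectrum.spectralRadius_lt_of_forall_lt A (fun z hz => by
      have := h z (hasEigenvalue_of_mem_spectrum A hz)
      exact_mod_cast this)
  have h2 := spectrum.pow_nnnorm_pow_one_div_tendsto_nhds_spectralRadius A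
  have h3 := ((tendsto_order.1 h2).2 _ h1).and (eventually_gt_atTop 0)
  obtain ⟨n, hn, hn0⟩ := h3.exists
  have h4 : ‖A ^ n‖₊ < 1 := by
    by_contra hcon
    push Not at hcon
    have h5 : (1 : ℝ≥0∞) ≤ (‖A ^ n‖₊ : ℝ≥0∞) := by exact_mod_cast hcon
    have h6 : (0 : ℝ) < 1 / (n : ℝ) := by
      have : (0 : ℝ) < n := by exact_mod_cast hn0
      positivity
    have h7 := ENNReal.one_le_rpow h5 h6
    exact absurd hn (not_lt.2 (by simpa using h7))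
  have h5 : ‖A ^ n‖ < 1 := by exact_mod_cast h4
  have h6 : Tendsto (fun k : ℕ => ‖A ^ n‖ ^ k) atTop (𝓝 0) :=
    tendsto_pow_atTop_nhds_zero_of_lt_one (norm_nonneg _) h5
  have h7 := ((tendsto_order.1 h6).2 (1 / 2) (by norm_num)).and (eventually_gt_atTop 0)
  obtain ⟨k, hk, hk0⟩ := h7.exists
  refine ⟨n * k, Nat.mul_pos hn0 hk0, ?_⟩
  rw [pow_mul]
  exact (norm_pow_le' _ hk0).trans hk.le

/-- Near an attracting periodic point some iterate is a contraction. -/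
lemma exists_contraction {F : ℂ × ℂ → ℂ × ℂ} (hF : Differentiable ℂ F) {m : ℕ} {p : ℂ × ℂ}
    (h : Att F m p) : ∃ (q : ℕ) (r : ℝ), 0 < q ∧ 0 < r ∧ F^[q] p = p ∧
      ∀ z, ‖z - p‖ < r → ‖F^[q] z - p‖ ≤ 3 / 4 * ‖z - p‖ := by
  obtain ⟨hm, hp, he⟩ := h
  obtain ⟨N, hN, hA⟩ := exists_pow_small _ he
  have hd : HasFDerivAt (F^[m]) (fderiv ℂ (F^[m]) p) p :=
    ((hF.iterate m) p).hasFDerivAt
  have hd2 : HasFDerivAt ((F^[m])^[N]) ((fderiv ℂ (F^[m]) p) ^ N) p := hd.iterate hp N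
  rw [← Function.iterate_mul] at hd2
  have hfix : F^[m * N] p = p := by
    rw [Function.iterate_mul]
    exact Function.iterate_fixed hp N
  have h1 := hd2.isLittleO.def (show (0 : ℝ) < 1 / 4 by norm_num)
  rw [Metric.eventually_nhds_iff] at h1
  obtain ⟨r, hr, h1⟩ := h1
  refine ⟨m * N, r, Nat.mul_pos hm hN, hr, hfix, ?_⟩
  intro z hz
  have h2 := h1 (y := z) (by rw [dist_eq_norm]; exact hz)
  rw [hfix] at h2
  have h3 : ‖((fderiv ℂ (F^[m]) p) ^ N) (z - p)‖ ≤ 1 / 2 * ‖z - p‖ :=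
    (((fderiv ℂ (F^[m]) p) ^ N).le_opNorm _).trans
      (mul_le_mul_of_nonneg_right hA (norm_nonneg _))
  have h4 : F^[m * N] z - p = (F^[m * N] z - p - ((fderiv ℂ (F^[m]) p) ^ N) (z - p)) +
      ((fderiv ℂ (F^[m]) p) ^ N) (z - p) := by abel
  rw [h4]
  refine (norm_add_le _ _).trans ?_
  linarith

/-- The points which come close to `p` under forward iteration. -/
def bas (F : ℂ × ℂ → ℂ × ℂ) (p : ℂ × ℂ) (r : ℝ) : Set (ℂ × ℂ) := {z | ∃ i : ℕ, ‖F^[i] z - p‖ < r}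

lemma bas_open {F : ℂ × ℂ → ℂ × ℂ} (hF : Continuous F) (p : ℂ × ℂ) (r : ℝ) :
    IsOpen (bas F p r) := by
  have : bas F p r = ⋃ i : ℕ, {z | ‖F^[i] z - p‖ < r} := by
    ext z
    simp [bas]
  rw [this]
  apply isOpen_iUnion
  intro i
  exact isOpen_lt ((hF.iterate i).sub continuous_const).norm continuous_const

lemma eventually_near {F : ℂ × ℂ → ℂ × ℂ} (hF : Continuous F) {q : ℕ} {r : ℝ} {p : ℂ × ℂ}
    (hq : 0 < q) (hcon : ∀ z, ‖z - p‖ < r → ‖F^[q] z - p‖ ≤ 3 / 4 * ‖z - p‖)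
    {z : ℂ × ℂ} (hz : z ∈ bas F p r) {V : Set (ℂ × ℂ)} (hV : IsOpen V)
    (hOV : ∀ i : ℕ, F^[i] p ∈ V) : ∀ᶠ n in atTop, F^[n] z ∈ V := by
  obtain ⟨i, hi⟩ := hz
  set w := F^[i] z with hw
  have h1 : ∀ k : ℕ, ‖F^[q * k] w - p‖ ≤ (3 / 4) ^ k * ‖w - p‖ := by
    intro k
    induction k with
    | zero => simp
    | succ k ih =>
      have h0 : ((3 : ℝ) / 4) ^ k ≤ 1 := pow_le_one₀ (by norm_num) (by norm_num)
      have h2 : ‖F^[q * k] w - p‖ < r := by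
        refine lt_of_le_of_lt ih (lt_of_le_of_lt ?_ hi)
        have := norm_nonneg (w - p)
        nlinarith
      have h3 := hcon _ h2
      rw [Nat.mul_succ, Nat.add_comm, Function.iterate_add_apply, pow_succ]
      linarith
  have h2 : Tendsto (fun k : ℕ => F^[q * k] w) atTop (𝓝 p) := by
    rw [tendsto_iff_norm_sub_tendsto_zero]
    have h3 : Tendsto (fun k : ℕ => ((3 : ℝ) / 4) ^ k * ‖w - p‖) atTop (𝓝 (0 * ‖w - p‖)) :=
      (tendsto_pow_atTop_nhds_zero_of_lt_one (by norm_num) (by norm_num)).mul_const _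
    rw [zero_mul] at h3
    exact squeeze_zero (fun _ => norm_nonneg _) h1 h3
  have h3 : ∀ j : ℕ, ∀ᶠ k in atTop, F^[j] (F^[q * k] w) ∈ V := by
    intro j
    have h4 : Tendsto (fun k : ℕ => F^[j] (F^[q * k] w)) atTop (𝓝 (F^[j] p)) :=
      ((hF.iterate j).tendsto p).comp h2
    exact h4 (hV.mem_nhds (hOV j))
  have h4 : ∀ᶠ k in atTop, ∀ j ∈ Finset.range q, F^[j] (F^[q * k] w) ∈ V := by
    rw [Filter.eventually_all_finset]
    intro j _
    exact h3 j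
  obtain ⟨k₀, hk₀⟩ := h4.exists_forall_of_atTop
  rw [eventually_atTop]
  refine ⟨i + q * k₀, ?_⟩
  intro n hn
  obtain ⟨t, rfl⟩ : ∃ t, n = t + i := ⟨n - i, by omega⟩
  rw [Function.iterate_add_apply]
  have h5 : k₀ ≤ t / q := by
    rw [Nat.le_div_iff_mul_le hq, mul_comm]
    omega
  have h6 := hk₀ (t / q) h5 (t % q) (Finset.mem_range.2 (Nat.mod_lt _ hq))
  rw [← Function.iterate_add_apply, Nat.mod_add_div] at h6
  exact h6

lemma recurrent_mem_orb {F : ℂ × ℂ → ℂ × ℂ} (hF : Continuous F) {m q : ℕ} {r : ℝ} {p : ℂ × ℂ}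
    (hm : 0 < m) (hp : F^[m] p = p)
    (hq : 0 < q) (hcon : ∀ z, ‖z - p‖ < r → ‖F^[q] z - p‖ ≤ 3 / 4 * ‖z - p‖)
    {z : ℂ × ℂ} (hz : z ∈ bas F p r) (hrec : ∀ s ∈ 𝓝 z, ∃ᶠ n in atTop, F^[n] z ∈ s) :
    z ∈ orb F p := by
  by_contra hne
  have hcl : IsClosed (orb F p) := (orb_finite hm hp).isClosed
  obtain ⟨ε, hε, hball⟩ := Metric.nhds_basis_closedBall.mem_iff.1 (hcl.isOpen_compl.mem_nhds hne)
  have h1 := eventually_near hF hq hcon hz (V := (Metric.closedBall z ε)ᶜ)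
    Metric.isClosed_closedBall.isOpen_compl (fun i h => hball h ⟨i, rfl⟩)
  have h2 := hrec _ (Metric.closedBall_mem_nhds z hε)
  exact (h2.and_eventually h1).exists.elim fun n hn => hn.2 hn.1

lemma periodic_recurrent {F : ℂ × ℂ → ℂ × ℂ} {n : ℕ} (hn : 0 < n) {z : ℂ × ℂ}
    (hz : F^[n] z = z) : ∀ s ∈ 𝓝 z, ∃ᶠ n in atTop, F^[n] z ∈ s := by
  intro s hs
  rw [frequently_atTop]
  intro a
  refine ⟨n * a, Nat.le_mul_of_pos_left a hn, ?_⟩
  rw [Function.iterate_mul, Function.iterate_fixed hz a]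
  exact mem_of_mem_nhds hs

/-- An eigenvalue of the derivative of a return map at a point of a cycle. -/
lemma eig_transfer {f g : ℂ × ℂ → ℂ × ℂ} (G : Good f g) {m n : ℕ} {p x : ℂ × ℂ} (hm : 0 < m)
    (hn : 0 < n) (hp : f^[m] p = p) (hx : x ∈ orb f p) (hxn : f^[n] x = x) {c : ℂ}
    (hc : Module.End.HasEigenvalue (fderiv ℂ (f^[n]) x : ℂ × ℂ →ₗ[ℂ] ℂ × ℂ) c) :
    ∃ μ : ℂ, Module.End.HasEigenvalue (fderiv ℂ (f^[m]) p : ℂ × ℂ →ₗ[ℂ] ℂ × ℂ) μ ∧
      c ^ m = μ ^ n := by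
  have hf : Differentiable ℂ f := G.smooth.differentiable one_ne_zero
  have hg : Differentiable ℂ g := G.smooth'.differentiable one_ne_zero
  -- a time `j` with `f^j(x) = p`
  obtain ⟨j, hj⟩ : ∃ j : ℕ, f^[j] x = p := by
    obtain ⟨i, rfl⟩ := hx
    refine ⟨m * i - i, ?_⟩
    simp only
    rw [← Function.iterate_add_apply]
    have : m * i - i + i = m * i := Nat.sub_add_cancel (Nat.le_mul_of_pos_left i hm)
    rw [this, Function.iterate_mul]
    exact Function.iterate_fixed hp i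
  set A := fderiv ℂ (f^[n]) x with hA
  set C := fderiv ℂ (f^[m]) p with hC
  set E := fderiv ℂ (f^[j]) x with hE
  set E' := fderiv ℂ (g^[j]) p with hE'
  have dA : HasFDerivAt ((f^[n])^[m]) (A ^ m) x := by
    have h : HasFDerivAt (f^[n]) A x := ((hf.iterate n) x).hasFDerivAt
    exact h.iterate hxn m
  have dC : HasFDerivAt ((f^[m])^[n]) (C ^ n) p := by
    have h : HasFDerivAt (f^[m]) C p := ((hf.iterate m) p).hasFDerivAt
    exact h.iterate hp n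
  have dE : HasFDerivAt (f^[j]) E x := ((hf.iterate j) x).hasFDerivAt
  have hxA : (f^[n])^[m] x = x := Function.iterate_fixed hxn m
  have e1 : HasFDerivAt (f^[j] ∘ (f^[n])^[m]) (E.comp (A ^ m)) x := by
    apply HasFDerivAt.comp x _ dA
    rw [hxA]
    exact dE
  have e2 : HasFDerivAt ((f^[m])^[n] ∘ f^[j]) ((C ^ n).comp E) x := by
    apply HasFDerivAt.comp x _ dE
    rw [hj]
    exact dC
  have hfun : f^[j] ∘ (f^[n])^[m] = (f^[m])^[n] ∘ f^[j] := by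
    rw [← Function.iterate_mul, ← Function.iterate_mul, ← Function.iterate_add,
      ← Function.iterate_add]
    congr 1
    ring
  rw [hfun] at e1
  have hEq : E.comp (A ^ m) = (C ^ n).comp E := e1.unique e2
  have dE' : HasFDerivAt (g^[j]) E' (f^[j] x) := by
    rw [hj]
    exact ((hg.iterate j) p).hasFDerivAt
  have e3 : HasFDerivAt (g^[j] ∘ f^[j]) (E'.comp E) x := dE'.comp x dE
  have hid : g^[j] ∘ f^[j] = id := by
    funext y
    exact (Function.LeftInverse.iterate G.left j) y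
  rw [hid] at e3
  have hE'E : E'.comp E = ContinuousLinearMap.id ℂ (ℂ × ℂ) := e3.unique (hasFDerivAt_id x)
  obtain ⟨v, hv⟩ := hc.exists_hasEigenvector
  have hv0 : v ≠ 0 := hv.2
  have hAv : A v = c • v := hv.apply_eq_smul
  have hAmv : ∀ k : ℕ, (A ^ k) v = c ^ k • v := by
    intro k
    induction k with
    | zero => simp
    | succ k ih =>
      rw [pow_succ']
      change A ((A ^ k) v) = _
      rw [ih, map_smul, hAv, smul_smul, pow_succ]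
  have hEv : E v ≠ 0 := by
    intro h
    apply hv0
    have : E'.comp E v = v := by rw [hE'E]; rfl
    rw [← this]
    change E' (E v) = 0
    rw [h, map_zero]
  have hCE : (C ^ n) (E v) = c ^ m • E v := by
    have h1 : (C ^ n).comp E v = E.comp (A ^ m) v := by rw [hEq]
    change (C ^ n) (E v) = E ((A ^ m) v) at h1
    rw [h1, hAmv, map_smul]
  have hlin : (((C : ℂ × ℂ →L[ℂ] ℂ × ℂ) : ℂ × ℂ →ₗ[ℂ] ℂ × ℂ) ^ n) (E v) = c ^ m • E v := by
    rw [← hCE]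
    have : ∀ (k : ℕ) (u : ℂ × ℂ),
        (((C : ℂ × ℂ →L[ℂ] ℂ × ℂ) : ℂ × ℂ →ₗ[ℂ] ℂ × ℂ) ^ k) u = (C ^ k) u := by
      intro k
      induction k with
      | zero => intro u; rfl
      | succ k ih =>
        intro u
        rw [pow_succ, pow_succ]
        change (((C : ℂ × ℂ →L[ℂ] ℂ × ℂ) : ℂ × ℂ →ₗ[ℂ] ℂ × ℂ) ^ k) (C u) = (C ^ k) (C u)
        exact ih (C u)
    exact this n (E v)
  have heig : Module.End.HasEigenvalue
      (((C : ℂ × ℂ →L[ℂ] ℂ × ℂ) : Module.End ℂ (ℂ × ℂ)) ^ n) (c ^ m) :=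
    Module.End.hasEigenvalue_of_hasEigenvector ⟨Module.End.mem_eigenspace_iff.2 hlin, hEv⟩
  rw [Module.End.hasEigenvalue_iff_mem_spectrum, spectrum.map_pow_of_pos _ hn] at heig
  obtain ⟨μ, hμ, hμ2⟩ := heig
  exact ⟨μ, Module.End.hasEigenvalue_iff_mem_spectrum.2 hμ, hμ2.symm⟩

lemma not_saddle_zero {f : ℂ × ℂ → ℂ × ℂ} (z : ℂ × ℂ) : z ∉ saddlePoints f 0 := by
  rintro ⟨_, ⟨c, hc, hc'⟩, _⟩
  obtain ⟨v, hv⟩ := hc'.exists_hasEigenvector
  have h1 : v = c • v := by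
    have := hv.apply_eq_smul
    simpa using this
  have h2 : (1 - c) • v = 0 := by rw [sub_smul, one_smul, ← h1, sub_self]
  rcases smul_eq_zero.1 h2 with h | h
  · have : c = 1 := by linear_combination -h
    rw [this] at hc
    simp at hc
  · exact hv.2 h

/-- The points of an attracting or repelling cycle are not saddle points. -/
lemma orb_not_saddle {f g : ℂ × ℂ → ℂ × ℂ} (G : Good f g) {m n : ℕ} {p x : ℂ × ℂ}
    (h : Att f m p ∨ Rep f m p) (hx : x ∈ orb f p) : x ∉ saddlePoints f n := by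
  intro hs
  rcases Nat.eq_zero_or_pos n with rfl | hn
  · exact not_saddle_zero x hs
  obtain ⟨hxn, ⟨c, hc, hc'⟩, ⟨d, hd, hd'⟩⟩ := hs
  rcases h with h | h
  · obtain ⟨hm, hp, he⟩ := h
    obtain ⟨μ, hμ, hcμ⟩ := eig_transfer G hm hn hp hx hxn hc'
    have h1 := he μ hμ
    have h2 : ‖c‖ ^ m = ‖μ‖ ^ n := by rw [← norm_pow, ← norm_pow, hcμ]
    have h3 : ‖μ‖ ^ n ≤ 1 := pow_le_one₀ (norm_nonneg _) h1.le
    have h4 : 1 < ‖c‖ ^ m := one_lt_pow₀ hc hm.ne'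
    linarith
  · obtain ⟨hm, hp, he⟩ := h
    obtain ⟨μ, hμ, hcμ⟩ := eig_transfer G hm hn hp hx hxn hd'
    have h1 := he μ hμ
    have h2 : ‖d‖ ^ m = ‖μ‖ ^ n := by rw [← norm_pow, ← norm_pow, hcμ]
    have h3 : 1 ≤ ‖μ‖ ^ n := one_le_pow₀ h1.le
    have h4 : ‖d‖ ^ m < 1 := pow_lt_one₀ (norm_nonneg _) hd hm.ne'
    linarith

/-- A repelling cycle is attracting for the inverse. -/
lemma rep_inverse {f g : ℂ × ℂ → ℂ × ℂ} (G : Good f g) {m : ℕ} {p : ℂ × ℂ} (h : Rep f m p) :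
    Att g m p := by
  obtain ⟨hm, hp, he⟩ := h
  have hf : Differentiable ℂ f := G.smooth.differentiable one_ne_zero
  have hg : Differentiable ℂ g := G.smooth'.differentiable one_ne_zero
  have hgp : g^[m] p = p := by
    conv_lhs => rw [← hp]
    exact (Function.LeftInverse.iterate G.left m) p
  refine ⟨hm, hgp, ?_⟩
  intro c hc
  obtain ⟨w, hw⟩ := hc.exists_hasEigenvector
  have hw1 : fderiv ℂ (g^[m]) p w = c • w := hw.apply_eq_smul
  have d1 : HasFDerivAt (g^[m]) (fderiv ℂ (g^[m]) p) p := ((hg.iterate m) p).hasFDerivAt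
  have d2 : HasFDerivAt (f^[m]) (fderiv ℂ (f^[m]) p) (g^[m] p) := by
    rw [hgp]
    exact ((hf.iterate m) p).hasFDerivAt
  have d3 := d2.comp p d1
  have hid : f^[m] ∘ g^[m] = id := by
    funext y
    exact (Function.LeftInverse.iterate G.right m) y
  rw [hid] at d3
  have h3 : (fderiv ℂ (f^[m]) p).comp (fderiv ℂ (g^[m]) p) = ContinuousLinearMap.id ℂ (ℂ × ℂ) :=
    d3.unique (hasFDerivAt_id p)
  have h4 : fderiv ℂ (f^[m]) p (fderiv ℂ (g^[m]) p w) = w := by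
    change (fderiv ℂ (f^[m]) p).comp (fderiv ℂ (g^[m]) p) w = w
    rw [h3]; rfl
  rw [hw1, map_smul] at h4
  have hc0 : c ≠ 0 := by
    rintro rfl
    rw [zero_smul] at h4
    exact hw.2 h4.symm
  have h5 : fderiv ℂ (f^[m]) p w = c⁻¹ • w := by
    conv_rhs => rw [← h4, smul_smul, inv_mul_cancel₀ hc0, one_smul]
  have h6 := he c⁻¹ (Module.End.hasEigenvalue_of_hasEigenvector
    ⟨Module.End.mem_eigenspace_iff.2 h5, hw.2⟩)
  rw [norm_inv] at h6
  have h7 : 0 < ‖c‖ := norm_pos_iff.2 hc0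
  by_contra hcon
  push Not at hcon
  have h8 : ‖c‖⁻¹ ≤ 1 := inv_le_one_of_one_le₀ hcon
  linarith

end Pool.Agent.Y203.HN
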