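import Pool.Agent.Helper179.Sink

/-! Invariant measures near a cycle which is the only part of a neighbourhood seen by invariant
probability measures: equilibrium states of weights with a high peak at the cycle. -/

set_option autoImplicit false

open MeasureTheory Filter Topology
open scoped ENNReal NNReal

namespace Pool.Agent.Y203.HN

open Pool.Agent.Helper179.KS Pool.Agent.Helper179.Eq

/-- The orbit of `p`. -/
def orb (f : ℂ × ℂ → ℂ × ℂ) (p : ℂ × ℂ) : Set (ℂ × ℂ) := Set.range (fun i : ℕ => f^[i] p)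

/-- The uniform distribution on the first `m` points of the orbit of `p`. -/
noncomputable def cyc (f : ℂ × ℂ → ℂ × ℂ) (m : ℕ) (p : ℂ × ℂ) : Measure (ℂ × ℂ) :=
  (m : ℝ≥0∞)⁻¹ • ∑ i ∈ Finset.range m, Measure.dirac (f^[i] p)

/-- The mean of `φ` over the first `m` points of the orbit of `p`. -/
noncomputable def avg (f : ℂ × ℂ → ℂ × ℂ) (m : ℕ) (p : ℂ × ℂ) (φ : ℂ × ℂ → ℝ) : ℝ :=
  (∑ i ∈ Finset.range m, φ (f^[i] p)) / m

variable {f : ℂ × ℂ → ℂ × ℂ} {m : ℕ} {p : ℂ × ℂ}

lemma iterate_mod (_hm : 0 < m) (hp : f^[m] p = p) (i : ℕ) : f^[i] p = f^[i % m] p := by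
  have h : ∀ k : ℕ, f^[m * k] p = p := by
    intro k
    induction k with
    | zero => simp
    | succ k ih => rw [Nat.mul_succ, Function.iterate_add_apply, hp, ih]
  conv_lhs => rw [← Nat.mod_add_div i m, Function.iterate_add_apply, h]

lemma orb_eq (hm : 0 < m) (hp : f^[m] p = p) :
    orb f p = ((Finset.range m).image (fun i => f^[i] p) : Finset (ℂ × ℂ)) := by
  ext z
  simp only [orb, Set.mem_range, Finset.coe_image, Finset.coe_range, Set.mem_image, Set.mem_Iio]
  constructor
  · rintro ⟨i, rfl⟩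
    exact ⟨i % m, Nat.mod_lt _ hm, (iterate_mod hm hp i).symm⟩
  · rintro ⟨i, _, rfl⟩
    exact ⟨i, rfl⟩

lemma orb_finite (hm : 0 < m) (hp : f^[m] p = p) : (orb f p).Finite := by
  rw [orb_eq hm hp]; exact Finset.finite_toSet _

lemma orb_meas (hm : 0 < m) (hp : f^[m] p = p) : MeasurableSet (orb f p) :=
  (orb_finite hm hp).measurableSet

lemma orb_pre (hinj : Function.Injective f) (hm : 0 < m) (hp : f^[m] p = p) :
    f ⁻¹' (orb f p) = orb f p := by
  ext z
  simp only [Set.mem_preimage, orb, Set.mem_range]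
  constructor
  · rintro ⟨i, hi⟩
    rcases Nat.eq_zero_or_pos i with rfl | h
    · refine ⟨m - 1, hinj ?_⟩
      rw [← hi, ← Function.iterate_succ_apply' f, Nat.succ_eq_add_one, Nat.sub_one_add_one hm.ne']
      simpa using hp
    · refine ⟨i - 1, hinj ?_⟩
      rw [← hi, ← Function.iterate_succ_apply' f, Nat.succ_eq_add_one, Nat.sub_one_add_one h.ne']
  · rintro ⟨i, rfl⟩
    exact ⟨i + 1, Function.iterate_succ_apply' f i p⟩

lemma orb_iterate {x : ℂ × ℂ} (hx : x ∈ orb f p) (i : ℕ) : f^[i] x ∈ orb f p := by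
  obtain ⟨j, rfl⟩ := hx
  exact ⟨i + j, by simp only [Function.iterate_add_apply]⟩

/-- Sums over a period do not depend on the starting point. -/
lemma sum_shift {M : Type*} [AddCommMonoid M] (u : ℂ × ℂ → M) (hm : 0 < m) (hp : f^[m] p = p)
    {x : ℂ × ℂ} (hx : x ∈ orb f p) :
    ∑ i ∈ Finset.range m, u (f^[i] x) = ∑ i ∈ Finset.range m, u (f^[i] p) := by
  obtain ⟨j, rfl⟩ := hx
  simp only
  induction j with
  | zero => simp
  | succ j ih =>
    rw [← ih]
    obtain ⟨k, rfl⟩ : ∃ k, m = k + 1 := ⟨m - 1, by omega⟩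
    rw [Finset.sum_range_succ, Finset.sum_range_succ' (fun i => u (f^[i] (f^[j] p)))]
    congr 1
    · apply Finset.sum_congr rfl
      intro i _
      rw [← Function.iterate_add_apply, ← Function.iterate_add_apply]
      congr 2
      omega
    · congr 1
      rw [← Function.iterate_add_apply, ← Function.iterate_add_apply]
      have h1 : k + (j + 1) = j + (k + 1) := by omega
      rw [h1, Function.iterate_add_apply, hp]
      simp

/-- An invariant measure is on a cycle a multiple of the uniform distribution. -/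
lemma restrict_orb (hmeas : Measurable f) (hinj : Function.Injective f) (hm : 0 < m)
    (hp : f^[m] p = p) (ν : Measure (ℂ × ℂ)) [IsFiniteMeasure ν] (hT : MeasurePreserving f ν ν) :
    ν.restrict (orb f p) = ν (orb f p) • cyc f m p := by
  have hO := orb_meas hm hp
  have hpre := orb_pre hinj hm hp
  have hr : MeasurePreserving f (ν.restrict (orb f p)) (ν.restrict (orb f p)) := by
    have := hT.restrict_preimage hO
    rwa [hpre] at this
  ext B hB
  have hmne : (m : ℝ≥0∞) ≠ 0 := by exact_mod_cast hm.ne'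
  have hmt : (m : ℝ≥0∞) ≠ ⊤ := ENNReal.natCast_ne_top m
  have h1 : (m : ℝ≥0∞) * ν.restrict (orb f p) B =
      (∑ i ∈ Finset.range m, Set.indicator B (fun _ => (1 : ℝ≥0∞)) (f^[i] p)) * ν (orb f p) := by
    have h2 : ∀ i : ℕ, ν.restrict (orb f p) B =
        ∫⁻ x in orb f p, Set.indicator B (fun _ => (1 : ℝ≥0∞)) (f^[i] x) ∂ν := by
      intro i
      rw [← (hr.iterate i).measure_preimage hB.nullMeasurableSet]
      have h3 : (fun x => Set.indicator B (fun _ => (1 : ℝ≥0∞)) (f^[i] x)) =
          Set.indicator (f^[i] ⁻¹' B) (fun _ => (1 : ℝ≥0∞)) := by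
        funext x
        by_cases h : f^[i] x ∈ B
        · have h' : x ∈ f^[i] ⁻¹' B := h
          rw [Set.indicator_of_mem h, Set.indicator_of_mem h']
        · have h' : x ∉ f^[i] ⁻¹' B := h
          rw [Set.indicator_of_notMem h, Set.indicator_of_notMem h']
      rw [h3, lintegral_indicator ((hmeas.iterate i) hB)]
      simp
    calc (m : ℝ≥0∞) * ν.restrict (orb f p) B
        = ∑ i ∈ Finset.range m, ν.restrict (orb f p) B := by
          rw [Finset.sum_const, Finset.card_range, nsmul_eq_mul]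
      _ = ∑ i ∈ Finset.range m,
          ∫⁻ x in orb f p, Set.indicator B (fun _ => (1 : ℝ≥0∞)) (f^[i] x) ∂ν :=
          Finset.sum_congr rfl fun i _ => h2 i
      _ = ∫⁻ x in orb f p,
          ∑ i ∈ Finset.range m, Set.indicator B (fun _ => (1 : ℝ≥0∞)) (f^[i] x) ∂ν := by
          rw [lintegral_finsetSum]
          intro i _
          exact (measurable_const.indicator hB).comp (hmeas.iterate i)
      _ = ∫⁻ x in orb f p,
          ∑ i ∈ Finset.range m, Set.indicator B (fun _ => (1 : ℝ≥0∞)) (f^[i] p) ∂ν := by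
          apply setLIntegral_congr_fun hO
          intro x hx
          exact sum_shift (Set.indicator B (fun _ => (1 : ℝ≥0∞))) hm hp hx
      _ = _ := by
          rw [setLIntegral_const]
  have h4 : cyc f m p B = (m : ℝ≥0∞)⁻¹ *
      ∑ i ∈ Finset.range m, Set.indicator B (fun _ => (1 : ℝ≥0∞)) (f^[i] p) := by
    unfold cyc
    rw [Measure.smul_apply, Measure.finsetSum_apply, smul_eq_mul]
    congr 1
    apply Finset.sum_congr rfl
    intro i _
    rw [Measure.dirac_apply' _ hB]
    rfl
  rw [Measure.smul_apply, h4, smul_eq_mul]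
  have h5 : ν.restrict (orb f p) B = (m : ℝ≥0∞)⁻¹ * ((m : ℝ≥0∞) * ν.restrict (orb f p) B) := by
    rw [← mul_assoc, ENNReal.inv_mul_cancel hmne hmt, one_mul]
  rw [h5, h1]
  ring

lemma cyc_prob (hm : 0 < m) : IsProbabilityMeasure (cyc f m p) := by
  have hmne : (m : ℝ≥0∞) ≠ 0 := by exact_mod_cast hm.ne'
  have hmt : (m : ℝ≥0∞) ≠ ⊤ := ENNReal.natCast_ne_top m
  constructor
  unfold cyc
  rw [Measure.smul_apply, Measure.finsetSum_apply, smul_eq_mul]
  simp only [measure_univ, Finset.sum_const, Finset.card_range, nsmul_eq_mul, mul_one]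
  exact ENNReal.inv_mul_cancel hmne hmt

lemma integral_cyc (φ : ℂ × ℂ → ℝ) : ∫ z, φ z ∂(cyc f m p) = avg f m p φ := by
  unfold cyc avg
  rw [integral_smul_measure, integral_finsetSum_measure]
  · simp only [integral_dirac, ENNReal.toReal_inv, ENNReal.toReal_natCast, smul_eq_mul]
    rw [div_eq_inv_mul]
  · intro i _
    exact integrable_dirac (by simp)

lemma cyc_inv (hmeas : Measurable f) (hm : 0 < m) (hp : f^[m] p = p) :
    IsInvariantProb f (cyc f m p) := by
  refine ⟨cyc_prob hm, hmeas, ?_⟩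
  ext B hB
  rw [Measure.map_apply hmeas hB]
  unfold cyc
  rw [Measure.smul_apply, Measure.smul_apply, Measure.finsetSum_apply, Measure.finsetSum_apply]
  congr 1
  have h := sum_shift (f := f) (p := p) (fun z => (Measure.dirac z : Measure (ℂ × ℂ)) B) hm hp
    (x := f p) ⟨1, rfl⟩
  rw [← h]
  apply Finset.sum_congr rfl
  intro i _
  rw [Measure.dirac_apply' _ (hmeas hB), Measure.dirac_apply' _ hB]
  have h1 : f (f^[i] p) = f^[i] (f p) := by
    rw [← Function.iterate_succ_apply' f, Function.iterate_succ_apply]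
  by_cases h : f^[i] (f p) ∈ B
  · have h' : f^[i] p ∈ f ⁻¹' B := by
      rw [Set.mem_preimage, h1]; exact h
    rw [Set.indicator_of_mem h, Set.indicator_of_mem h']
    rfl
  · have h' : f^[i] p ∉ f ⁻¹' B := by
      rw [Set.mem_preimage, h1]; exact h
    rw [Set.indicator_of_notMem h, Set.indicator_of_notMem h']

/-- Measures carried by a finite set have zero entropy. -/
lemma ksEntropy_finite {μ : Measure (ℂ × ℂ)} [IsProbabilityMeasure μ] {T : ℂ × ℂ → ℂ × ℂ}
    {A : Set (ℂ × ℂ)} (hA : A.Finite) (h0 : μ Aᶜ = 0) : ksEntropy μ T ≤ 0 := by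
  rw [ksEntropy_le_iff]
  intro k P _
  unfold partitionEntropy
  classical
  set F := hA.toFinset with hF
  have hle : ∀ n, shannonEntropy μ (itinerary T P n) ≤ F.card := by
    intro n
    unfold shannonEntropy
    have h1 : ∀ w ∉ F.image (itinerary T P n),
        Real.negMulLog (μ.real (itinerary T P n ⁻¹' {w})) = 0 := by
      intro w hw
      have : μ (itinerary T P n ⁻¹' {w}) = 0 := by
        apply measure_mono_null _ h0
        intro z hz hzA
        apply hw
        rw [Finset.mem_image]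
        exact ⟨z, by simpa [hF] using hzA, hz⟩
      simp [Measure.real, this]
    rw [← Finset.sum_subset (Finset.subset_univ (F.image (itinerary T P n)))
      (fun w _ hw => h1 w hw)]
    calc ∑ w ∈ F.image (itinerary T P n), Real.negMulLog (μ.real (itinerary T P n ⁻¹' {w}))
        ≤ ∑ w ∈ F.image (itinerary T P n), (1 : ℝ) := by
          apply Finset.sum_le_sum
          intro w _
          have h2 : 0 ≤ μ.real (itinerary T P n ⁻¹' {w}) := measureReal_nonneg
          rcases h2.eq_or_lt with h3 | h3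
          · rw [← h3]; simp
          · have h4 := Real.one_sub_inv_le_log_of_pos h3
            unfold Real.negMulLog
            have h5 : μ.real (itinerary T P n ⁻¹' {w}) *
                (μ.real (itinerary T P n ⁻¹' {w}))⁻¹ = 1 := mul_inv_cancel₀ h3.ne'
            nlinarith
      _ = ((F.image (itinerary T P n)).card : ℝ) := by simp
      _ ≤ F.card := by exact_mod_cast Finset.card_image_le
  rw [show (0 : EReal) = ((0 : ℝ) : EReal) from rfl]
  have h3 : Tendsto (fun n : ℕ => (((F.card : ℝ) / n : ℝ) : EReal)) atTop (𝓝 ((0 : ℝ) : EReal)) :=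
    (continuous_coe_real_ereal.tendsto _).comp (tendsto_const_div_atTop_nhds_zero_nat (F.card : ℝ))
  rw [← h3.limsup_eq]
  exact limsup_le_limsup (Eventually.of_forall fun n => by
    have : shannonEntropy μ (itinerary T P n) / n ≤ (F.card : ℝ) / n :=
      div_le_div_of_nonneg_right (hle n) (Nat.cast_nonneg n)
    simpa only [EReal.coe_le_coe_iff] using this)

/-- Standing hypotheses: the cycle of `p` is the only part of the open set `U` which is seen by
invariant probability measures, these are carried by `K`, and their entropies are bounded. -/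
structure CycleData (f : ℂ × ℂ → ℂ × ℂ) (m : ℕ) (p : ℂ × ℂ) (K U : Set (ℂ × ℂ)) (H : ℝ) :
    Prop where
  meas : Measurable f
  inj : Function.Injective f
  mpos : 0 < m
  per : f^[m] p = p
  Hnn : 0 ≤ H
  cpt : IsCompact K
  openU : IsOpen U
  mem : ∀ i : ℕ, f^[i] p ∈ U
  supp : ∀ ν : Measure (ℂ × ℂ), IsProbabilityMeasure ν → MeasurePreserving f ν ν →
    ∀ᵐ z ∂ν, z ∈ K
  sink : ∀ ν : Measure (ℂ × ℂ), IsProbabilityMeasure ν → MeasurePreserving f ν ν →
    ∀ᵐ z ∂ν, z ∈ U → z ∈ orb f p
  bound : ∀ ν : Measure (ℂ × ℂ), IsProbabilityMeasure ν → MeasurePreserving f ν ν →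
    ksEntropy ν f ≤ (H : EReal)

variable {K U : Set (ℂ × ℂ)} {H : ℝ}

lemma CycleData.entropy_le (D : CycleData f m p K U H) {ν : Measure (ℂ × ℂ)}
    (hν : IsInvariantProb f ν) {S : ℝ}
    (hS : ∀ μ, IsInvariantProb f μ → ksEntropy μ f ≤ (S : EReal)) :
    ksEntropy ν f ≤ (((1 - ν.real (orb f p)) * S : ℝ) : EReal) := by
  have := hν.1
  have := ksEntropy_le_of_invariant_set ν hν.2 (orb_meas D.mpos D.per)
    (orb_pre D.inj D.mpos D.per) 0 S
    (by
      intro μ hμ _ h0 _
      have := hμ
      exact ksEntropy_finite (orb_finite D.mpos D.per) h0)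
    (by
      intro μ hμ hT _ _
      exact hS μ ⟨hμ, hT⟩)
  simpa using this

/-- Integrals of continuous functions against invariant measures. -/
lemma CycleData.integral_eq (D : CycleData f m p K U H) {ν : Measure (ℂ × ℂ)}
    (hν : IsInvariantProb f ν) {φ : ℂ × ℂ → ℝ} (hφ : Continuous φ) :
    ∫ z, φ z ∂ν = ν.real (orb f p) * avg f m p φ + ∫ z in (orb f p)ᶜ, φ z ∂ν := by
  have := hν.1
  have hO := orb_meas D.mpos D.per
  obtain ⟨C, hC⟩ := (D.cpt.bddAbove_image hφ.norm.continuousOn)
  have hint : Integrable φ ν := by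
    refine Integrable.mono' (integrable_const C) hφ.measurable.aestronglyMeasurable ?_
    filter_upwards [D.supp ν hν.1 hν.2] with z hz
    exact hC ⟨z, hz, rfl⟩
  rw [← integral_add_compl hO hint]
  congr 1
  rw [restrict_orb D.meas D.inj D.mpos D.per ν hν.2, integral_smul_measure, integral_cyc]
  rfl

lemma CycleData.ae_compl (D : CycleData f m p K U H) {ν : Measure (ℂ × ℂ)}
    (hν : IsInvariantProb f ν) : ∀ᵐ z ∂(ν.restrict (orb f p)ᶜ), z ∈ K ∧ z ∉ U := by
  have hO := orb_meas D.mpos D.per
  rw [ae_restrict_iff' hO.compl]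
  filter_upwards [D.supp ν hν.1 hν.2, D.sink ν hν.1 hν.2] with z h1 h2 h3
  exact ⟨h1, fun h => h3 (h2 h)⟩

lemma CycleData.integral_compl_le (D : CycleData f m p K U H) {ν : Measure (ℂ × ℂ)}
    (hν : IsInvariantProb f ν) {φ : ℂ × ℂ → ℝ} (hφ : Continuous φ) {M : ℝ}
    (hM : ∀ z ∈ K, z ∉ U → φ z ≤ M) :
    ∫ z in (orb f p)ᶜ, φ z ∂ν ≤ (1 - ν.real (orb f p)) * M := by
  have := hν.1
  have hO := orb_meas D.mpos D.per
  obtain ⟨C, hC⟩ := (D.cpt.bddAbove_image hφ.norm.continuousOn)
  have hint : Integrable φ ν := by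
    refine Integrable.mono' (integrable_const C) hφ.measurable.aestronglyMeasurable ?_
    filter_upwards [D.supp ν hν.1 hν.2] with z hz
    exact hC ⟨z, hz, rfl⟩
  calc ∫ z in (orb f p)ᶜ, φ z ∂ν ≤ ∫ z in (orb f p)ᶜ, M ∂ν := by
        apply integral_mono_ae hint.integrableOn (integrable_const M)
        filter_upwards [D.ae_compl hν] with z hz
        exact hM z hz.1 hz.2
    _ = (1 - ν.real (orb f p)) * M := by
        rw [integral_const, smul_eq_mul]
        congr 1
        rw [Measure.real, Measure.restrict_apply MeasurableSet.univ, Set.univ_inter]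
        rw [← Measure.real, measureReal_compl hO]
        simp

lemma eq_cyc_of_full (D : CycleData f m p K U H) {ν : Measure (ℂ × ℂ)}
    (hν : IsInvariantProb f ν) (h : ν.real (orb f p) = 1) : ν = cyc f m p := by
  have := hν.1
  have hO := orb_meas D.mpos D.per
  have h1 : ν (orb f p) = 1 := by
    have : ν (orb f p) = ENNReal.ofReal (ν.real (orb f p)) := by rw [ofReal_measureReal]
    rw [this, h]; simp
  have h2 := restrict_orb D.meas D.inj D.mpos D.per ν hν.2
  rw [h1, one_smul] at h2
  rw [← h2, eq_comm, Measure.restrict_eq_self_of_ae_mem]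
  rw [← prob_compl_eq_zero_iff hO] at h1
  exact measure_eq_zero_iff_ae_notMem.1 h1 |>.mono fun z hz => by simpa using hz

/-- For a weight which is higher on the cycle than on the part of `K` outside `U` by more than
`H`, the uniform distribution on the cycle is the unique equilibrium state. -/
theorem CycleData.unique_of_high (D : CycleData f m p K U H) {φ : ℂ × ℂ → ℝ} (hφ : Continuous φ)
    (hhigh : ∀ z ∈ K, z ∉ U → φ z + H < avg f m p φ) :
    pressure f φ = ((avg f m p φ : ℝ) : EReal) ∧
    IsEquilibriumState f φ (cyc f m p) ∧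
    ∀ ν, IsEquilibriumState f φ ν → ν = cyc f m p := by
  -- the maximum of the weight outside `U`
  obtain ⟨M, hM, hMlt⟩ : ∃ M : ℝ, (∀ z ∈ K, z ∉ U → φ z ≤ M) ∧ M + H < avg f m p φ := by
    have hc : IsCompact (K \ U) := D.cpt.diff D.openU
    rcases (K \ U).eq_empty_or_nonempty with he | hne
    · refine ⟨avg f m p φ - H - 1, ?_, by linarith⟩
      intro z hz hzU
      have : z ∈ K \ U := ⟨hz, hzU⟩
      rw [he] at this
      exact this.elim
    · obtain ⟨z0, hz0, hmax⟩ := hc.exists_isMaxOn hne hφ.continuousOn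
      exact ⟨φ z0, fun z hz hzU => hmax ⟨hz, hzU⟩, hhigh z0 hz0.1 hz0.2⟩
  have hfe : ∀ ν, IsInvariantProb f ν → freeEnergy f φ ν ≤
      (((1 - ν.real (orb f p)) * (H + M) + ν.real (orb f p) * avg f m p φ : ℝ) : EReal) := by
    intro ν hν
    unfold freeEnergy
    have h1 := D.entropy_le hν (fun μ hμ => D.bound μ hμ.1 hμ.2)
    have h2 : ∫ z, φ z ∂ν ≤ ν.real (orb f p) * avg f m p φ + (1 - ν.real (orb f p)) * M := by
      rw [D.integral_eq hν hφ]
      have := D.integral_compl_le hν hφ hM
      linarith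
    have h3 : (((1 - ν.real (orb f p)) * (H + M) + ν.real (orb f p) * avg f m p φ : ℝ) : EReal) =
        (((1 - ν.real (orb f p)) * H : ℝ) : EReal) +
        ((ν.real (orb f p) * avg f m p φ + (1 - ν.real (orb f p)) * M : ℝ) : EReal) := by
      rw [← EReal.coe_add]
      congr 1
      ring
    rw [h3]
    exact add_le_add h1 (by exact_mod_cast h2)
  have hle1 : ∀ ν : Measure (ℂ × ℂ), IsInvariantProb f ν → ν.real (orb f p) ≤ 1 := by
    intro ν hν
    have := hν.1
    exact measureReal_le_one
  have hcinv := cyc_inv (f := f) (p := p) D.meas D.mpos D.per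
  have hcprob := hcinv.1
  have hent : 0 ≤ ksEntropy (cyc f m p) f := ksEntropy_nonneg _ _
  have hfc : ((avg f m p φ : ℝ) : EReal) ≤ freeEnergy f φ (cyc f m p) := by
    unfold freeEnergy
    rw [integral_cyc]
    calc ((avg f m p φ : ℝ) : EReal) = 0 + ((avg f m p φ : ℝ) : EReal) := by rw [zero_add]
      _ ≤ _ := add_le_add hent le_rfl
  have hp : pressure f φ = ((avg f m p φ : ℝ) : EReal) := by
    apply le_antisymm
    · unfold pressure
      apply iSup_le
      intro ν
      apply iSup_le
      intro hν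
      refine le_trans (hfe ν hν) ?_
      have h1 := hle1 ν hν
      have h2 : (1 - ν.real (orb f p)) * (H + M) + ν.real (orb f p) * avg f m p φ
          ≤ avg f m p φ := by nlinarith
      exact_mod_cast h2
    · exact hfc.trans (le_iSup_of_le _ (le_iSup_of_le hcinv le_rfl))
  refine ⟨hp, ⟨hcinv, ?_⟩, ?_⟩
  · rw [hp]
    apply le_antisymm _ hfc
    rw [← hp]
    exact le_iSup_of_le _ (le_iSup_of_le hcinv le_rfl)
  · intro ν hν
    have := hν.1.1
    have h1 := hν.2
    rw [hp] at h1
    have h2 := hfe ν hν.1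
    rw [h1] at h2
    have h3 : avg f m p φ ≤ (1 - ν.real (orb f p)) * (H + M) + ν.real (orb f p) * avg f m p φ := by
      exact_mod_cast h2
    have h4 : ν.real (orb f p) = 1 := by
      have := hle1 ν hν.1
      by_contra hne
      have hlt : ν.real (orb f p) < 1 := lt_of_le_of_ne this hne
      nlinarith
    exact eq_cyc_of_full D hν.1 h4

end Pool.Agent.Y203.HN
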