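import Pool.Agent.Y203.HN.Cycle
import Pool.Agent.Results.MP_636246_an.SinkSaddles

/-! General complex Henon maps: inverses, escape, the compact set carrying all invariant
probability measures, and the bound of the entropies. -/

set_option autoImplicit false

open MeasureTheory Filter Topology
open scoped ENNReal NNReal

namespace Pool.Agent.Y203.HN

open Pool.Agent.Helper179.KS Pool.Agent.Helper179.Eq Pool.Agent.Results.MP_636246_an.SinkSaddles

/-- Escape in both time directions outside the polydisc of radius `R`. -/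
def EscAt (f : ℂ × ℂ → ℂ × ℂ) (R : ℝ) : Prop :=
  (∀ z : ℂ × ℂ, R < ‖z.2‖ → ‖z.1‖ ≤ ‖z.2‖ → 2 * ‖z.2‖ ≤ ‖(f z).2‖ ∧ ‖(f z).1‖ ≤ ‖(f z).2‖) ∧
  (∀ z : ℂ × ℂ, R < ‖(f z).1‖ → ‖(f z).2‖ ≤ ‖(f z).1‖ →
    2 * ‖(f z).1‖ ≤ ‖z.1‖ ∧ ‖z.2‖ ≤ ‖z.1‖)

/-- The properties of complex Henon maps that we use. -/
structure Good (f g : ℂ × ℂ → ℂ × ℂ) : Prop where
  smooth : ContDiff ℂ 1 f
  smooth' : ContDiff ℂ 1 g
  left : ∀ z, g (f z) = z
  right : ∀ z, f (g z) = z
  esc : ∃ R₀ : ℝ, 0 < R₀ ∧ ∀ R, R₀ ≤ R → EscAt f R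

lemma poly_growth (P : Polynomial ℂ) (hP : 2 ≤ P.natDegree) (c : ℝ) :
    ∃ R₀ : ℝ, 0 < R₀ ∧ ∀ y : ℂ, R₀ < ‖y‖ → c * ‖y‖ ≤ ‖P.eval y‖ := by
  have hdiv : 0 < P.divX.degree := by
    have h1 : P.divX.natDegree = P.natDegree - 1 := Polynomial.natDegree_divX_eq_natDegree_tsub_one
    rw [← Polynomial.natDegree_pos_iff_degree_pos, h1]
    omega
  have ht : Tendsto (fun y : ℂ => ‖P.divX.eval y‖) (comap (fun y : ℂ => ‖y‖) atTop) atTop :=
    Polynomial.tendsto_norm_atTop P.divX hdiv tendsto_comap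
  have h2 := ht.eventually_ge_atTop (c + 1)
  rw [eventually_comap] at h2
  obtain ⟨R₁, hR₁⟩ := h2.exists_forall_of_atTop
  refine ⟨max 1 (max R₁ ‖P.coeff 0‖), lt_max_of_lt_left one_pos, ?_⟩
  intro y hy
  have hy1 : R₁ ≤ ‖y‖ := (le_max_left _ _).trans ((le_max_right _ _).trans hy.le)
  have hy2 : ‖P.coeff 0‖ ≤ ‖y‖ := (le_max_right _ _).trans ((le_max_right _ _).trans hy.le)
  have h3 := hR₁ ‖y‖ hy1 y rfl
  have h4 : P.eval y = y * P.divX.eval y + P.coeff 0 := by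
    have h := congrArg (Polynomial.eval y) (Polynomial.divX_mul_X_add P)
    rw [Polynomial.eval_add, Polynomial.eval_mul, Polynomial.eval_X, Polynomial.eval_C] at h
    rw [← h, mul_comm]
  have h5 : ‖y * P.divX.eval y‖ - ‖P.coeff 0‖ ≤ ‖P.eval y‖ := by
    rw [h4]
    have := norm_sub_norm_le (y * P.divX.eval y) (-P.coeff 0)
    rw [norm_neg, sub_neg_eq_add] at this
    exact this
  rw [norm_mul] at h5
  have h6 := norm_nonneg y
  nlinarith

lemma esc_elementary (P : Polynomial ℂ) (a : ℂ) (hP : 2 ≤ P.natDegree) (ha : a ≠ 0) :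
    ∃ R₀ : ℝ, 0 < R₀ ∧ ∀ R, R₀ ≤ R → EscAt (elementaryHenon P a) R := by
  obtain ⟨R₀, hR₀, hgrow⟩ := poly_growth P hP (2 * ‖a‖ + 2)
  refine ⟨R₀, hR₀, ?_⟩
  intro R hR
  have hapos : 0 < ‖a‖ := norm_pos_iff.2 ha
  constructor
  · intro z hz1 hz2
    have h1 := hgrow z.2 (lt_of_le_of_lt hR hz1)
    have h2 : ‖P.eval z.2‖ - ‖a * z.1‖ ≤ ‖P.eval z.2 - a * z.1‖ := norm_sub_norm_le _ _
    rw [norm_mul] at h2
    have h3 : 0 ≤ ‖z.2‖ := norm_nonneg _
    simp only [elementaryHenon]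
    constructor <;> nlinarith
  · intro z hz1 hz2
    simp only [elementaryHenon] at hz1 hz2 ⊢
    have h1 := hgrow z.2 (lt_of_le_of_lt hR hz1)
    have h2 : ‖P.eval z.2‖ - ‖a * z.1‖ ≤ ‖P.eval z.2 - a * z.1‖ := norm_sub_norm_le _ _
    rw [norm_mul] at h2
    have h3 : 0 ≤ ‖z.2‖ := norm_nonneg _
    have h4 : ‖a‖ * (2 * ‖z.2‖) ≤ ‖a‖ * ‖z.1‖ := by nlinarith
    have h5 := le_of_mul_le_mul_left h4 hapos
    exact ⟨h5, by linarith⟩

lemma good_elementary (P : Polynomial ℂ) (a : ℂ) (hP : 2 ≤ P.natDegree) (ha : a ≠ 0) :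
    Good (elementaryHenon P a) (fun z => (a⁻¹ * (P.eval z.1 - z.2), z.1)) where
  smooth := by
    unfold elementaryHenon
    have h : ContDiff ℂ 1 (fun y : ℂ => P.eval y) := by
      have := P.contDiff_aeval (𝕜 := ℂ) 1
      simpa [Polynomial.coe_aeval_eq_eval] using this
    exact contDiff_snd.prodMk ((h.comp contDiff_snd).sub (contDiff_const.mul contDiff_fst))
  smooth' := by
    have h : ContDiff ℂ 1 (fun y : ℂ => P.eval y) := by
      have := P.contDiff_aeval (𝕜 := ℂ) 1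
      simpa [Polynomial.coe_aeval_eq_eval] using this
    exact (contDiff_const.mul ((h.comp contDiff_fst).sub contDiff_snd)).prodMk contDiff_fst
  left := by
    intro z
    simp only [elementaryHenon]
    apply Prod.ext
    · simp only [sub_sub_cancel]
      rw [← mul_assoc, inv_mul_cancel₀ ha, one_mul]
    · rfl
  right := by
    intro z
    simp only [elementaryHenon]
    apply Prod.ext
    · rfl
    · simp only
      rw [← mul_assoc, mul_inv_cancel₀ ha, one_mul]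
      ring
  esc := esc_elementary P a hP ha

lemma esc_comp {f h : ℂ × ℂ → ℂ × ℂ} {R : ℝ} (hf : EscAt f R) (hh : EscAt h R) :
    EscAt (h ∘ f) R := by
  constructor
  · intro z hz1 hz2
    have h1 := hf.1 z hz1 hz2
    have h0 := norm_nonneg z.2
    have h2 := hh.1 (f z) (by linarith [h1.1]) h1.2
    exact ⟨by simp only [Function.comp_apply]; linarith [h1.1, h2.1], h2.2⟩
  · intro z hz1 hz2
    simp only [Function.comp_apply] at hz1 hz2 ⊢
    have h1 := hh.2 (f z) hz1 hz2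
    have h0 := norm_nonneg (h (f z)).1
    have h2 := hf.2 z (by linarith [h1.1]) h1.2
    exact ⟨by linarith [h1.1, h2.1], h2.2⟩

theorem exists_good {f : ℂ × ℂ → ℂ × ℂ} (hf : IsComplexHenon f) : ∃ g, Good f g := by
  induction hf with
  | elementary P a hP ha => exact ⟨_, good_elementary P a hP ha⟩
  | comp P a f hP ha hf ih =>
    obtain ⟨g, G⟩ := ih
    have E := good_elementary P a hP ha
    refine ⟨g ∘ (fun z => (a⁻¹ * (P.eval z.1 - z.2), z.1)), ?_⟩
    refine ⟨E.smooth.comp G.smooth, G.smooth'.comp E.smooth', ?_, ?_, ?_⟩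
    · intro z
      simp only [Function.comp_apply]
      have := E.left (f z)
      rw [this, G.left]
    · intro z
      simp only [Function.comp_apply]
      rw [G.right]
      exact E.right z
    · obtain ⟨R₁, hR₁, h1⟩ := G.esc
      obtain ⟨R₂, hR₂, h2⟩ := E.esc
      refine ⟨max R₁ R₂, lt_max_of_lt_left hR₁, ?_⟩
      intro R hR
      exact esc_comp (h1 R ((le_max_left _ _).trans hR)) (h2 R ((le_max_right _ _).trans hR))

/-- Invariant probability measures are carried by the polydisc. -/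
lemma box_of_esc {f : ℂ × ℂ → ℂ × ℂ} {R : ℝ} (hR : 0 < R) (hesc : EscAt f R)
    (ν : Measure (ℂ × ℂ)) (hν : IsProbabilityMeasure ν) (hT : MeasurePreserving f ν ν) :
    ∀ᵐ z ∂ν, ‖z‖ ≤ R := by
  have hgrow : ∀ a : ℝ, ∃ n : ℕ, a ≤ R * 2 ^ n := by
    intro a
    obtain ⟨n, hn⟩ := pow_unbounded_of_one_lt (a / R) (by norm_num : (1 : ℝ) < 2)
    refine ⟨n, ?_⟩
    rw [div_lt_iff₀ hR] at hn
    linarith
  have key : ∀ (a b : ℂ × ℂ → ℝ), Continuous a → Continuous b →
      (∀ n : ℕ, ν {z | R * 2 ^ n < a z ∧ b z ≤ a z} ≤ ν {z | R * 2 ^ (n + 1) < a z ∧ b z ≤ a z}) →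
      ∀ᵐ z ∂ν, ¬ (R < a z ∧ b z ≤ a z) := by
    intro a b ha hb hle
    have h0 := measure_eq_zero_of_escape ν
      (fun n : ℕ => {z | R * 2 ^ n < a z ∧ b z ≤ a z})
      (fun n => (measurableSet_lt measurable_const ha.measurable).inter
        (measurableSet_le hb.measurable ha.measurable))
      (by
        intro m n hmn z hz
        refine ⟨lt_of_le_of_lt ?_ hz.1, hz.2⟩
        have : (2 : ℝ) ^ m ≤ 2 ^ n := pow_le_pow_right₀ (by norm_num) hmn
        nlinarith)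
      (by
        rw [Set.eq_empty_iff_forall_notMem]
        intro z hz
        rw [Set.mem_iInter] at hz
        obtain ⟨n, hn⟩ := hgrow (a z)
        exact absurd (hz n).1 (not_lt.2 hn))
      hle
    have h1 := measure_eq_zero_iff_ae_notMem.1 h0
    filter_upwards [h1] with z hz h
    apply hz
    refine ⟨?_, h.2⟩
    simpa using h.1
  have hA := key (fun z => ‖z.2‖) (fun z => ‖z.1‖) (by fun_prop) (by fun_prop) (by
    intro n
    have hm : MeasurableSet {z : ℂ × ℂ | R * 2 ^ (n + 1) < ‖z.2‖ ∧ ‖z.1‖ ≤ ‖z.2‖} :=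
      (measurableSet_lt measurable_const measurable_snd.norm).inter
        (measurableSet_le measurable_fst.norm measurable_snd.norm)
    rw [← hT.measure_preimage hm.nullMeasurableSet]
    apply measure_mono
    rintro z ⟨hz1, hz2⟩
    have h2 : (1 : ℝ) ≤ 2 ^ n := one_le_pow₀ (by norm_num)
    have h3 := hesc.1 z (by nlinarith) hz2
    refine ⟨?_, h3.2⟩
    rw [pow_succ]
    linarith [h3.1])
  have hB := key (fun z => ‖z.1‖) (fun z => ‖z.2‖) (by fun_prop) (by fun_prop) (by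
    intro n
    have hm : MeasurableSet {z : ℂ × ℂ | R * 2 ^ n < ‖z.1‖ ∧ ‖z.2‖ ≤ ‖z.1‖} :=
      (measurableSet_lt measurable_const measurable_fst.norm).inter
        (measurableSet_le measurable_snd.norm measurable_fst.norm)
    rw [← hT.measure_preimage hm.nullMeasurableSet]
    apply measure_mono
    rintro z ⟨hz1, hz2⟩
    have h2 : (1 : ℝ) ≤ 2 ^ n := one_le_pow₀ (by norm_num)
    have h3 := hesc.2 z (by nlinarith) hz2
    refine ⟨?_, h3.2⟩
    rw [pow_succ]
    linarith [h3.1])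
  filter_upwards [hA, hB] with z h1 h2
  rw [Prod.norm_def]
  by_contra hcon
  push Not at hcon
  rcases lt_max_iff.1 hcon with h | h
  · rcases le_total (‖z.2‖) (‖z.1‖) with h3 | h3
    · exact h2 ⟨h, h3⟩
    · exact h1 ⟨lt_of_lt_of_le h h3, h3⟩
  · rcases le_total (‖z.2‖) (‖z.1‖) with h3 | h3
    · exact h2 ⟨lt_of_lt_of_le h h3, h3⟩
    · exact h1 ⟨h, h3⟩

/-- The points with full orbit in the polydisc of radius `R`. -/
def KK (f g : ℂ × ℂ → ℂ × ℂ) (R : ℝ) : Set (ℂ × ℂ) :=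
  {z | ∀ n : ℕ, ‖f^[n] z‖ ≤ R ∧ ‖g^[n] z‖ ≤ R}

lemma Good.cont {f g : ℂ × ℂ → ℂ × ℂ} (G : Good f g) : Continuous f := G.smooth.continuous

lemma Good.cont' {f g : ℂ × ℂ → ℂ × ℂ} (G : Good f g) : Continuous g := G.smooth'.continuous

lemma Good.inj {f g : ℂ × ℂ → ℂ × ℂ} (G : Good f g) : Function.Injective f :=
  Function.LeftInverse.injective G.left

lemma Good.inj' {f g : ℂ × ℂ → ℂ × ℂ} (G : Good f g) : Function.Injective g :=
  Function.LeftInverse.injective G.right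

lemma Good.mp {f g : ℂ × ℂ → ℂ × ℂ} (G : Good f g) {ν : Measure (ℂ × ℂ)}
    (hT : MeasurePreserving f ν ν) : MeasurePreserving g ν ν := by
  refine ⟨G.cont'.measurable, ?_⟩
  conv_lhs => rw [← hT.map_eq]
  rw [Measure.map_map G.cont'.measurable G.cont.measurable]
  have : g ∘ f = id := funext G.left
  rw [this, Measure.map_id]

lemma KK_compact {f g : ℂ × ℂ → ℂ × ℂ} (G : Good f g) (R : ℝ) : IsCompact (KK f g R) := by
  apply Metric.isCompact_of_isClosed_isBounded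
  · have : KK f g R = ⋂ n : ℕ, ({z | ‖f^[n] z‖ ≤ R} ∩ {z | ‖g^[n] z‖ ≤ R}) := by
      ext z
      simp [KK]
    rw [this]
    apply isClosed_iInter
    intro n
    exact (isClosed_le (G.cont.iterate n).norm continuous_const).inter
      (isClosed_le (G.cont'.iterate n).norm continuous_const)
  · rw [isBounded_iff_forall_norm_le]
    exact ⟨R, fun z hz => (hz 0).1⟩

lemma KK_supp {f g : ℂ × ℂ → ℂ × ℂ} (G : Good f g) {R : ℝ} (hR : 0 < R) (hesc : EscAt f R)
    (ν : Measure (ℂ × ℂ)) (hν : IsProbabilityMeasure ν) (hT : MeasurePreserving f ν ν) :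
    ∀ᵐ z ∂ν, z ∈ KK f g R := by
  have hbox := box_of_esc hR hesc ν hν hT
  have hT' := G.mp hT
  have h1 : ∀ n : ℕ, ∀ᵐ z ∂ν, ‖f^[n] z‖ ≤ R := fun n =>
    (hT.iterate n).quasiMeasurePreserving.ae hbox
  have h2 : ∀ n : ℕ, ∀ᵐ z ∂ν, ‖g^[n] z‖ ≤ R := fun n =>
    (hT'.iterate n).quasiMeasurePreserving.ae hbox
  filter_upwards [ae_all_iff.2 h1, ae_all_iff.2 h2] with z h3 h4
  exact fun n => ⟨h3 n, h4 n⟩

/-- The entropies are bounded. -/
lemma entropy_bound {f g : ℂ × ℂ → ℂ × ℂ} (G : Good f g) {R : ℝ} (hR : 0 < R)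
    (hesc : EscAt f R) : ∃ H : ℝ, 0 ≤ H ∧ ∀ ν : Measure (ℂ × ℂ), IsProbabilityMeasure ν →
      MeasurePreserving f ν ν → ksEntropy ν f ≤ (H : EReal) := by
  have hcf : Continuous (fderiv ℂ f) := G.smooth.continuous_fderiv one_ne_zero
  obtain ⟨L, hL⟩ := (isCompact_closedBall (0 : ℂ × ℂ) R).exists_bound_of_continuousOn
    hcf.continuousOn
  have hL0 : 0 ≤ max L 0 := le_max_right _ _
  have hlip : ∀ z ∈ Metric.closedBall (0 : ℂ × ℂ) R, ∀ w ∈ Metric.closedBall (0 : ℂ × ℂ) R,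
      dist (f z) (f w) ≤ max L 0 * dist z w := by
    intro z hz w hw
    rw [dist_eq_norm, dist_eq_norm]
    apply Convex.norm_image_sub_le_of_norm_fderiv_le (𝕜 := ℂ)
      (s := Metric.closedBall (0 : ℂ × ℂ) R)
      (fun x _ => (G.smooth.differentiable one_ne_zero).differentiableAt)
      (fun x hx => (hL x hx).trans (le_max_left _ _)) (convex_closedBall _ _) hw hz
  set K : Set (ℂ × ℂ) := {z | ∀ n : ℕ, ‖f^[n] z‖ ≤ R} with hK
  have hK0 : ∀ z ∈ K, z ∈ Metric.closedBall (0 : ℂ × ℂ) R := by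
    intro z hz
    rw [mem_closedBall_zero_iff]
    exact hz 0
  obtain ⟨H, hH0, hH⟩ := exists_entropy_bound f K
    (by
      intro z hz n
      rw [← Function.iterate_succ_apply]
      exact hz (n + 1)) (2 * R) (max L 0)
    (by
      intro z hz w hw
      rw [dist_eq_norm]
      have h1 := norm_sub_le z w
      have h2 := mem_closedBall_zero_iff.1 (hK0 z hz)
      have h3 := mem_closedBall_zero_iff.1 (hK0 w hw)
      linarith) hL0
    (fun z hz w hw => hlip z (hK0 z hz) w (hK0 w hw))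
  refine ⟨H, hH0, ?_⟩
  intro ν hν hT
  apply hH ν hν hT
  have hbox := box_of_esc hR hesc ν hν hT
  have h1 : ∀ n : ℕ, ∀ᵐ z ∂ν, ‖f^[n] z‖ ≤ R := fun n =>
    (hT.iterate n).quasiMeasurePreserving.ae hbox
  exact ae_all_iff.2 h1

end Pool.Agent.Y203.HN
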