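import Pool.Agent.Y203.HN.Attr

/-! Every complex Henon map with an attracting or repelling cycle: an isolating neighbourhood of the
cycle, weights with a high peak at the cycle. -/

set_option autoImplicit false

open MeasureTheory Filter Topology
open scoped ENNReal NNReal

namespace Pool.Agent.Y203.HN

open Pool.Agent.Helper179.KS Pool.Agent.Helper179.Eq Pool.Agent.Results.MP_636246_an.SinkSaddles

/-- The points whose full orbit is bounded. -/
def boundedOrbits (f : ℂ × ℂ → ℂ × ℂ) : Set (ℂ × ℂ) :=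
  {z | ∃ w : ℤ → ℂ × ℂ, w 0 = z ∧ (∀ k : ℤ, f (w k) = w (k + 1)) ∧
    Bornology.IsBounded (Set.range w)}

lemma KK_subset {f g : ℂ × ℂ → ℂ × ℂ} (G : Good f g) (R : ℝ) : KK f g R ⊆ boundedOrbits f := by
  intro z hz
  let w : ℤ → ℂ × ℂ := fun k => match k with
    | Int.ofNat n => f^[n] z
    | Int.negSucc n => g^[n + 1] z
  refine ⟨w, rfl, ?_, ?_⟩
  · intro k
    cases k with
    | ofNat n =>
      have h1 : w (Int.ofNat n + 1) = f^[n + 1] z := rfl
      rw [h1]
      exact (Function.iterate_succ_apply' f n z).symm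
    | negSucc n =>
      cases n with
      | zero =>
        have h1 : w (Int.negSucc 0 + 1) = z := rfl
        rw [h1]
        exact G.right z
      | succ n =>
        have h1 : w (Int.negSucc (n + 1) + 1) = g^[n + 1] z := by
          have : Int.negSucc (n + 1) + 1 = Int.negSucc n := by omega
          rw [this]
        rw [h1]
        have h2 : w (Int.negSucc (n + 1)) = g (g^[n + 1] z) :=
          Function.iterate_succ_apply' g (n + 1) z
        rw [h2, G.right]
  · rw [isBounded_iff_forall_norm_le]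
    refine ⟨R, ?_⟩
    rintro _ ⟨k, rfl⟩
    cases k with
    | ofNat n => exact (hz n).1
    | negSucc n => exact (hz (n + 1)).2

lemma orb_inverse {f g : ℂ × ℂ → ℂ × ℂ} (G : Good f g) {m : ℕ} {p : ℂ × ℂ} (hm : 0 < m)
    (hp : f^[m] p = p) : orb g p ⊆ orb f p := by
  rintro _ ⟨i, rfl⟩
  refine ⟨m * i - i, ?_⟩
  have h1 : f^[i] (f^[m * i - i] p) = p := by
    rw [← Function.iterate_add_apply]
    have : i + (m * i - i) = m * i := by
      have := Nat.le_mul_of_pos_left i hm
      omega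
    rw [this, Function.iterate_mul]
    exact Function.iterate_fixed hp i
  simp only
  conv_rhs => rw [← h1]
  exact ((Function.LeftInverse.iterate G.left i) _).symm

/-- The standing data for a map with an attracting or repelling cycle. -/
theorem exists_data {f g : ℂ × ℂ → ℂ × ℂ} (G : Good f g) {m : ℕ} {p : ℂ × ℂ}
    (h : Att f m p ∨ Rep f m p) : ∃ (R H : ℝ) (U : Set (ℂ × ℂ)),
      CycleData f m p (KK f g R) U H ∧ ∀ n, ∀ z ∈ U, z ∉ saddlePoints f n := by
  have hm : 0 < m := by rcases h with h | h <;> exact h.1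
  have hp : f^[m] p = p := by rcases h with h | h <;> exact h.2.1
  have hcf := G.cont
  have hcg := G.cont'
  -- the map `F` for which the cycle is attracting
  obtain ⟨F, hFc, hFA, hFmp, hFper, hForb, hFmem⟩ : ∃ F : ℂ × ℂ → ℂ × ℂ, Differentiable ℂ F ∧
      Att F m p ∧ (∀ ν : Measure (ℂ × ℂ), MeasurePreserving f ν ν → MeasurePreserving F ν ν) ∧
      (∀ n z, f^[n] z = z → F^[n] z = z) ∧ orb F p ⊆ orb f p ∧
      (∀ i, ∃ k, F^[k] (f^[i] p) = p) := by
    rcases h with h | h
    · refine ⟨f, G.smooth.differentiable one_ne_zero, h, fun _ h => h, fun _ _ h => h,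
        subset_rfl, ?_⟩
      intro i
      refine ⟨m * i - i, ?_⟩
      rw [← Function.iterate_add_apply]
      have : m * i - i + i = m * i := Nat.sub_add_cancel (Nat.le_mul_of_pos_left i hm)
      rw [this, Function.iterate_mul]
      exact Function.iterate_fixed hp i
    · refine ⟨g, G.smooth'.differentiable one_ne_zero, rep_inverse G h, fun _ h => G.mp h, ?_,
        orb_inverse G hm hp, ?_⟩
      · intro n z hz
        conv_lhs => rw [← hz]
        exact (Function.LeftInverse.iterate G.left n) z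
      · intro i
        exact ⟨i, (Function.LeftInverse.iterate G.left i) p⟩
  obtain ⟨q, r, hq, hr, _, hcon⟩ := exists_contraction hFc hFA
  obtain ⟨R, hR, hesc⟩ := G.esc
  have hescR := hesc R le_rfl
  obtain ⟨H, hH0, hH⟩ := entropy_bound G hR hescR
  have hrec : ∀ z ∈ bas F p r, (∀ s ∈ 𝓝 z, ∃ᶠ n in atTop, F^[n] z ∈ s) → z ∈ orb f p :=
    fun z hz hz2 => hForb (recurrent_mem_orb hFc.continuous hFA.1 hFA.2.1 hq hcon hz hz2)
  refine ⟨R, H, bas F p r, ⟨hcf.measurable, G.inj, hm, hp, hH0, KK_compact G R,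
    bas_open hFc.continuous p r, ?_, fun ν hν hT => KK_supp G hR hescR ν hν hT, ?_, hH⟩, ?_⟩
  · intro i
    obtain ⟨k, hk⟩ := hFmem i
    exact ⟨k, by rw [hk]; simpa using hr⟩
  · intro ν hν hT
    have h1 := (hFmp ν hT).conservative.ae_frequently_mem_of_mem_nhds
    filter_upwards [h1] with z hz hzU
    exact hrec z hzU hz
  · intro n z hz hs
    rcases Nat.eq_zero_or_pos n with rfl | hn
    · exact not_saddle_zero z hs
    · have h1 := hrec z hz (periodic_recurrent hn (hFper n z hs.1))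
      exact orb_not_saddle G h h1 hs

/-- A Lipschitz bump around the cycle. -/
noncomputable def bump (O : Set (ℂ × ℂ)) (ρ : ℝ) (z : ℂ × ℂ) : ℝ :=
  max 0 (1 - Metric.infDist z O / ρ)

lemma bump_nonneg (O : Set (ℂ × ℂ)) (ρ : ℝ) (z : ℂ × ℂ) : 0 ≤ bump O ρ z := le_max_left _ _

lemma bump_le_one (O : Set (ℂ × ℂ)) {ρ : ℝ} (hρ : 0 < ρ) (z : ℂ × ℂ) : bump O ρ z ≤ 1 := by
  apply max_le zero_le_one
  have : 0 ≤ Metric.infDist z O / ρ := div_nonneg Metric.infDist_nonneg hρ.le
  linarith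

lemma bump_mem {O : Set (ℂ × ℂ)} {ρ : ℝ} {z : ℂ × ℂ} (hz : z ∈ O) : bump O ρ z = 1 := by
  unfold bump
  rw [Metric.infDist_zero_of_mem hz]
  norm_num

lemma bump_eq_zero {O : Set (ℂ × ℂ)} {ρ : ℝ} (hρ : 0 < ρ) {z : ℂ × ℂ}
    (hz : ρ ≤ Metric.infDist z O) : bump O ρ z = 0 := by
  apply max_eq_left
  have : 1 ≤ Metric.infDist z O / ρ := by rwa [le_div_iff₀ hρ, one_mul]
  linarith

lemma bump_continuous (O : Set (ℂ × ℂ)) (ρ : ℝ) : Continuous (bump O ρ) :=
  continuous_const.max (continuous_const.sub ((Metric.continuous_infDist_pt O).div_const ρ))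

lemma abs_bump_sub_le (O : Set (ℂ × ℂ)) {ρ : ℝ} (hρ : 0 < ρ) (z w : ℂ × ℂ) :
    |bump O ρ z - bump O ρ w| ≤ ρ⁻¹ * ‖z - w‖ := by
  unfold bump
  have h1 : |max 0 (1 - Metric.infDist z O / ρ) - max 0 (1 - Metric.infDist w O / ρ)| ≤
      |(1 - Metric.infDist z O / ρ) - (1 - Metric.infDist w O / ρ)| := by
    have := abs_max_sub_max_le_max 0 (1 - Metric.infDist z O / ρ) 0 (1 - Metric.infDist w O / ρ)
    simpa using this
  refine h1.trans ?_
  have h2 : (1 - Metric.infDist z O / ρ) - (1 - Metric.infDist w O / ρ) =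
      -ρ⁻¹ * (Metric.infDist z O - Metric.infDist w O) := by
    rw [div_eq_inv_mul, div_eq_inv_mul]; ring
  rw [h2, abs_mul, abs_neg, abs_of_pos (inv_pos.2 hρ)]
  apply mul_le_mul_of_nonneg_left _ (inv_pos.2 hρ).le
  have h3 := (Metric.lipschitz_infDist_pt O).dist_le_mul z w
  rw [Real.dist_eq, NNReal.coe_one, one_mul, dist_eq_norm] at h3
  exact h3

lemma isHolder_bump (O : Set (ℂ × ℂ)) {ρ : ℝ} (hρ : 0 < ρ) (t : ℝ) :
    IsHolder (fun z => t * bump O ρ z) := by
  refine ⟨1, |t| * ρ⁻¹, one_pos, le_rfl, ?_⟩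
  intro z w
  rw [Real.rpow_one, ← mul_sub, abs_mul]
  have h1 := abs_bump_sub_le O hρ z w
  have h2 := norm_le_euclid (z - w)
  simp only [Prod.fst_sub, Prod.snd_sub] at h2
  have h3 : 0 ≤ ρ⁻¹ := (inv_pos.2 hρ).le
  calc |t| * |bump O ρ z - bump O ρ w| ≤ |t| * (ρ⁻¹ * ‖z - w‖) := by gcongr
    _ ≤ |t| * (ρ⁻¹ * Real.sqrt (‖z.1 - w.1‖ ^ 2 + ‖z.2 - w.2‖ ^ 2)) := by gcongr
    _ = _ := by ring

/-- A bump supported in `U`. -/
lemma CycleData.exists_bump {f : ℂ × ℂ → ℂ × ℂ} {m : ℕ} {p : ℂ × ℂ} {K U : Set (ℂ × ℂ)} {H : ℝ}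
    (D : CycleData f m p K U H) : ∃ ρ : ℝ, 0 < ρ ∧ (∀ z ∉ U, bump (orb f p) ρ z = 0) ∧
      HasCompactSupport (bump (orb f p) ρ) := by
  have hfin := orb_finite D.mpos D.per
  have hsub : orb f p ⊆ U := by
    rintro _ ⟨i, rfl⟩
    exact D.mem i
  obtain ⟨ρ, hρ, hth⟩ := hfin.isCompact.exists_thickening_subset_open D.openU hsub
  have hne : (orb f p).Nonempty := ⟨_, ⟨0, rfl⟩⟩
  refine ⟨ρ, hρ, ?_, ?_⟩
  · intro z hz
    apply bump_eq_zero hρ
    by_contra h
    push Not at h
    exact hz (hth ((Metric.mem_thickening_iff_infDist_lt hne).2 h))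
  · apply HasCompactSupport.of_support_subset_isCompact (hfin.isCompact.cthickening (r := ρ))
    intro z hz
    rw [Function.mem_support] at hz
    apply Metric.thickening_subset_cthickening
    rw [Metric.mem_thickening_iff_infDist_lt hne]
    by_contra h
    push Not at h
    exact hz (bump_eq_zero hρ h)

lemma avg_bump {f : ℂ × ℂ → ℂ × ℂ} {m : ℕ} {p : ℂ × ℂ} (hm : 0 < m) (ρ t : ℝ) :
    avg f m p (fun z => t * bump (orb f p) ρ z) = t := by
  unfold avg
  have : ∀ i ∈ Finset.range m, t * bump (orb f p) ρ (f^[i] p) = t := by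
    intro i _
    have hi : f^[i] p ∈ orb f p := ⟨i, rfl⟩
    rw [bump_mem hi, mul_one]
  rw [Finset.sum_congr rfl this, Finset.sum_const, Finset.card_range, nsmul_eq_mul]
  have hm' : (m : ℝ) ≠ 0 := by exact_mod_cast hm.ne'
  field_simp

/-- Integrals of functions vanishing off `U` against the weighted saddle measures. -/
lemma integral_saddle {f : ℂ × ℂ → ℂ × ℂ} {U : Set (ℂ × ℂ)}
    (hU : ∀ n, ∀ z ∈ U, z ∉ saddlePoints f n) {b : ℂ × ℂ → ℝ} (hb : Continuous b)
    (hb0 : ∀ z ∉ U, b z = 0) (φ : ℂ × ℂ → ℝ) (n : ℕ) :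
    ∫ z, b z ∂(saddleMeasure f φ n) = 0 := by
  apply integral_eq_zero_of_ae
  unfold saddleMeasure
  apply Measure.ae_smul_measure
  have hm : MeasurableSet {z : ℂ × ℂ | b z = (0 : ℂ × ℂ → ℝ) z} :=
    measurableSet_eq_fun hb.measurable measurable_const
  refine (Measure.ae_sum_iff' hm).2 ?_
  intro x
  apply Measure.ae_smul_measure
  refine (ae_dirac_iff hm).2 ?_
  exact hb0 _ (fun h => hU n _ h x.2)

/-- Fixed points of elementary Henon maps: attracting and repelling ones. -/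
lemma eig_elementary (P : Polynomial ℂ) (a y : ℂ) {c : ℂ}
    (hc : Module.End.HasEigenvalue
      (fderiv ℂ ((elementaryHenon P a)^[1]) (y, y) : ℂ × ℂ →ₗ[ℂ] ℂ × ℂ) c) :
    c ^ 2 = P.derivative.eval y * c - a := by
  rw [Function.iterate_one] at hc
  have hd : HasFDerivAt (elementaryHenon P a)
      ((ContinuousLinearMap.snd ℂ ℂ ℂ).prod
        ((P.derivative.eval y) • ContinuousLinearMap.snd ℂ ℂ ℂ -
          a • ContinuousLinearMap.fst ℂ ℂ ℂ)) (y, y) := by
    have h1 : HasFDerivAt (fun z : ℂ × ℂ => z.2) (ContinuousLinearMap.snd ℂ ℂ ℂ) (y, y) :=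
      hasFDerivAt_snd
    have h2 : HasFDerivAt (fun z : ℂ × ℂ => z.1) (ContinuousLinearMap.fst ℂ ℂ ℂ) (y, y) :=
      hasFDerivAt_fst
    have h3 : HasDerivAt (fun t : ℂ => P.eval t) (P.derivative.eval y) y := P.hasDerivAt y
    have h4 : HasFDerivAt (fun z : ℂ × ℂ => P.eval z.2)
        ((P.derivative.eval y) • ContinuousLinearMap.snd ℂ ℂ ℂ) (y, y) :=
      HasDerivAt.comp_hasFDerivAt (h₂ := fun t : ℂ => P.eval t) (f := fun z : ℂ × ℂ => z.2)
        (y, y) h3 h1
    exact h1.prodMk (h4.sub (h2.const_mul a))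
  rw [hd.fderiv] at hc
  obtain ⟨v, hv⟩ := hc.exists_hasEigenvector
  have h1 := hv.apply_eq_smul
  have h2 : v.2 = c * v.1 := by
    have := congrArg Prod.fst h1
    simpa using this
  have h3 : P.derivative.eval y * v.2 - a * v.1 = c * v.2 := by
    have := congrArg Prod.snd h1
    simpa using this
  have hv1 : v.1 ≠ 0 := by
    intro h
    apply hv.2
    apply Prod.ext
    · exact h
    · rw [h2, h]; simp
  rw [h2] at h3
  have h4 : (c ^ 2 - (P.derivative.eval y * c - a)) * v.1 = 0 := by linear_combination -h3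
  rcases mul_eq_zero.1 h4 with h | h
  · linear_combination h
  · exact absurd h hv1

lemma att_elementary (P : Polynomial ℂ) (a y : ℂ) (hy : P.eval y = (1 + a) * y)
    (h : ‖P.derivative.eval y‖ + ‖a‖ < 1) : Att (elementaryHenon P a) 1 (y, y) := by
  refine ⟨one_pos, ?_, ?_⟩
  · simp only [Function.iterate_one, elementaryHenon]
    rw [hy]
    congr 1
    ring
  · intro c hc
    have h1 := eig_elementary P a y hc
    have h2 : ‖c‖ ^ 2 ≤ ‖P.derivative.eval y‖ * ‖c‖ + ‖a‖ := by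
      rw [← norm_pow, h1, ← norm_mul]
      exact norm_sub_le _ _
    by_contra hcon
    push Not at hcon
    have h3 := norm_nonneg a
    have h4 := norm_nonneg (P.derivative.eval y)
    nlinarith

lemma rep_elementary (P : Polynomial ℂ) (a y : ℂ) (hy : P.eval y = (1 + a) * y)
    (h : ‖P.derivative.eval y‖ + 1 < ‖a‖) : Rep (elementaryHenon P a) 1 (y, y) := by
  refine ⟨one_pos, ?_, ?_⟩
  · simp only [Function.iterate_one, elementaryHenon]
    rw [hy]
    congr 1
    ring
  · intro c hc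
    have h1 := eig_elementary P a y hc
    have h2 : ‖a‖ ≤ ‖P.derivative.eval y‖ * ‖c‖ + ‖c‖ ^ 2 := by
      have : a = P.derivative.eval y * c - c ^ 2 := by rw [h1]; ring
      calc ‖a‖ = ‖P.derivative.eval y * c - c ^ 2‖ := by rw [← this]
        _ ≤ ‖P.derivative.eval y * c‖ + ‖c ^ 2‖ := norm_sub_le _ _
        _ = _ := by rw [norm_mul, norm_pow]
    by_contra hcon
    push Not at hcon
    have h3 := norm_nonneg c
    have h4 := norm_nonneg (P.derivative.eval y)
    nlinarith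

end Pool.Agent.Y203.HN
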